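import Pool.Agent.ZPU.StmtsB

/-!
Squad ZPU, row LOCU: the local theorem in one chart.
-/

set_option autoImplicit false

namespace Pool.Agent.ZPU.H79

open Polynomial Pool.Agent.ZPT Pool.Agent.ZP3

lemma locu_hom {A B : Type} [CommRing A] [CommRing B] (φ : A →+* B) (t : A) (P : ℤ[X]) :
    φ (aeval t P) = aeval (φ t) P := by
  rw [aeval_def, aeval_def, hom_eval₂]
  congr 1
  exact RingHom.ext_int _ _

lemma md_symm {K : Type} [Field K] {q q' : K} (h : Md q q') : Md q' q := by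
  obtain ⟨u, v, hu, hv, e⟩ := h
  exact ⟨v, u, hv, hu, e.symm⟩

lemma md_trans {K : Type} [Field K] {q q' q'' : K} (h : Md q q') (h' : Md q' q'') : Md q q'' := by
  obtain ⟨u, v, hu, hv, e⟩ := h
  obtain ⟨u', v', hu', hv', e'⟩ := h'
  refine ⟨u * u', v' * v, Nat.mul_pos hu hu', Nat.mul_pos hv' hv, ?_⟩
  rw [pow_mul, e, ← pow_mul, mul_comm v u', pow_mul, e', ← pow_mul]

theorem locu (lc0 : LC0Stmt) (lc1 : LC1Stmt) (tei : TEIStmt) (sml : SMLStmt) (evo : EVOStmt)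
    (ik : IKStmt) (is_ : ISStmt) (ti : TIStmt) (ts : TSStmt) (tq : TQStmt) (eh : EHStmt) :
    LOCUStmt := by
  intro U Psi hU hPC p hp K _ _ _ _ _ hE hPK ι d n F G hpd hG l hl
  have hp5 : 5 ≤ p := by omega
  -- the exponents
  have h0 : ∀ z : Fin n × Fin n × Fin n × Fin n, ∃ M : ℕ, 1 ≤ M ∧
      (z.2.1 ≠ z.1 → z.2.1 ≠ z.2.2.1 → z.2.1 ≠ z.2.2.2 → z.2.2.2 ≠ z.1 → z.2.2.2 ≠ z.2.2.1 →
      ∀ (t t₀ : K) (q : Fin n → K), Te p t₀ → ‖t - t₀‖ < 1 →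
      (∀ i, i = z.1 ∨ i = z.2.1 ∨ i = z.2.2.1 ∨ i = z.2.2.2 → ‖aeval t (F i)‖ = 1 ∧
        ‖aeval t (G i)‖ = 1 ∧ Tq U l F G t i (q i)) →
      Md (q z.1) (q z.2.1) → Md (q z.2.2.1) (q z.2.2.2) → q z.1 ^ M = q z.2.1 ^ M) := by
    rintro ⟨a, b, c, e⟩
    by_cases h : b ≠ a ∧ b ≠ c ∧ b ≠ e ∧ e ≠ a ∧ e ≠ c
    · obtain ⟨M, hM, hM'⟩ := lc0 U hU p hp K hE d n F G hpd hG l hl a b c e h.1 h.2.1 h.2.2.1
        h.2.2.2.1 h.2.2.2.2
      exact ⟨M, hM, fun _ _ _ _ _ => hM'⟩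
    · exact ⟨1, le_rfl, fun h1 h2 h3 h4 h5 => absurd ⟨h1, h2, h3, h4, h5⟩ h⟩
  have h1 : ∀ z : Fin n × Fin n × Fin n × Fin n, ∃ M : ℕ, 1 ≤ M ∧
      (z.1 ≠ z.2.1 → z.1 ≠ z.2.2.1 → z.1 ≠ z.2.2.2 → z.2.2.2 ≠ z.2.1 → z.2.2.2 ≠ z.2.2.1 →
      ∀ (t t₀ : K) (q : Fin n → K), Te p t₀ → ‖t - t₀‖ < 1 →
      (‖aeval t (F z.1)‖ < 1 ∨ ‖aeval t (G z.1)‖ < 1) → Tq U l F G t z.1 (q z.1) →
      (∀ j, j = z.2.1 ∨ j = z.2.2.1 ∨ j = z.2.2.2 → ‖aeval t (F j)‖ = 1 ∧ ‖aeval t (G j)‖ = 1 ∧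
        Tq U l F G t j (q j)) →
      Md (q z.1) (q z.2.1) → Md (q z.2.2.1) (q z.2.2.2) → q z.2.2.1 ^ M = q z.2.2.2 ^ M) := by
    rintro ⟨i, b, c, e⟩
    by_cases h : i ≠ b ∧ i ≠ c ∧ i ≠ e ∧ e ≠ b ∧ e ≠ c
    · obtain ⟨M, hM, hM'⟩ := lc1 U hU p hp K hE d n F G hpd hG l hl i b c e h.1 h.2.1 h.2.2.1
        h.2.2.2.1 h.2.2.2.2
      exact ⟨M, hM, fun _ _ _ _ _ => hM'⟩
    · exact ⟨1, le_rfl, fun h1 h2 h3 h4 h5 => absurd ⟨h1, h2, h3, h4, h5⟩ h⟩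
  choose m0 hm0 hm0' using h0
  choose m1 hm1 hm1' using h1
  refine ⟨max (Finset.univ.sup fun z => m0 z * m0 z) (Finset.univ.sup fun z => m1 z * m1 z), ?_⟩
  intro t x ht hx hat
  obtain ⟨t₀, ht₀, htt⟩ := tei p hp K hE ι t ht
  have hle : ∀ A : ℤ[X], ‖aeval (ι t) A‖ ≤ 1 := fun A =>
    ((evo K).2.2.2.2.2.2 A (ι t) (ι t) ht ht).1
  have hιx : ∀ i, ι (x i) = (l : K) * aeval (ι t) (F i) / aeval (ι t) (G i) := by
    intro i
    rw [(hx i).2, map_div₀, map_mul, locu_hom, locu_hom, map_ratCast]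
  have hln : 1 < ‖((l : ℚ) : K)‖ := by
    rw [hE l]
    exact_mod_cast hl
  -- special indices
  set sp : Fin n → Prop := fun i => ‖aeval (ι t) (F i)‖ < 1 ∨ ‖aeval (ι t) (G i)‖ < 1 with hsp
  have hnsp : ∀ i, ¬ sp i → ‖aeval (ι t) (F i)‖ = 1 ∧ ‖aeval (ι t) (G i)‖ = 1 := by
    intro i hi
    simp only [hsp, not_or, not_lt] at hi
    exact ⟨le_antisymm (hle _) hi.1, le_antisymm (hle _) hi.2⟩
  have hun : ∀ i j, i ≠ j → sp i → sp j → False := by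
    intro i j hij hi hj
    have key : ∀ A B : ℤ[X], IsCoprime (bar p A) (bar p B) → ‖aeval (ι t) A‖ < 1 →
        ‖aeval (ι t) B‖ < 1 → False := by
      intro A B hAB h1 h2
      rcases sml p hp K hE A B hAB (ι t) ht with h | h
      · exact absurd h h1.ne
      · exact absurd h h2.ne
    rcases hi with hi | hi <;> rcases hj with hj | hj
    · exact key _ _ (hG.FF i j hij) hi hj
    · exact key _ _ (hG.FG i j) hi hj
    · exact key _ _ (hG.FG j i) hj hi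
    · exact key _ _ (hG.GG i j hij) hi hj
  have hbig : ∀ i, ¬ sp i → 1 < ‖ι (x i)‖ := by
    intro i hi
    have h := hnsp i hi
    rw [hιx, norm_div, norm_mul, h.1, h.2, mul_one, div_one]
    exact hln
  have hpair : ∀ i j, i ≠ j → Isog (x i : ℂ) (x j : ℂ) → 1 < ‖ι (x i)‖ ∧ 1 < ‖ι (x j)‖ ∧
      KI U (ι (x i)) (ι (x j)) := by
    intro i j hij hI
    have hi1 : 1 < ‖ι (x i)‖ := by
      by_cases hi : sp i
      · have hj : ¬ sp j := fun hj => hun i j hij hi hj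
        exact (ik U Psi hU hPC p hp hp5 K hE hPK ι (x j) (x i) (is_ _ _ hI) (hbig j hj)).1
      · exact hbig i hi
    have h := ik U Psi hU hPC p hp hp5 K hE hPK ι (x i) (x j) hI hi1
    exact ⟨hi1, h.1, h.2⟩
  -- Tate parameters
  have hq0 : ∀ i, ∃ q : K, 1 < ‖ι (x i)‖ → 0 < ‖q‖ ∧ ‖q‖ < 1 ∧ jv U q = ι (x i) := by
    intro i
    by_cases h : 1 < ‖ι (x i)‖
    · obtain ⟨q, hq⟩ := ts U hU p hp hp5 K hE _ h
      exact ⟨q, fun _ => hq⟩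
    · exact ⟨0, fun h' => absurd h' h⟩
  choose q hq using hq0
  have hTq : ∀ i, 1 < ‖ι (x i)‖ → Tq U l F G (ι t) i (q i) := by
    intro i hi
    obtain ⟨h1, h2, h3⟩ := hq i hi
    exact ⟨h1, h2, by rw [h3, hιx]⟩
  have hMd : ∀ i j, i ≠ j → Isog (x i : ℂ) (x j : ℂ) → Md (q i) (q j) := by
    intro i j hij hI
    obtain ⟨hi, hj, w, w', h1, h2, h3, h4, h5, h6, A, B, hA, hB, h7⟩ := hpair i j hij hI
    obtain ⟨g1, g2, g3⟩ := hq i hi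
    obtain ⟨g4, g5, g6⟩ := hq j hj
    have e1 : w = q i := ti U hU p hp hp5 K hE w (q i) h1 h2 g1 g2 (by rw [h5, g3])
    have e2 : w' = q j := ti U hU p hp hp5 K hE w' (q j) h3 h4 g4 g5 (by rw [h6, g6])
    exact ⟨A, B, hA, hB, by rw [← e1, ← e2, h7]⟩
  -- conclusion from equality of powers
  set N := max (Finset.univ.sup fun z => m0 z * m0 z) (Finset.univ.sup fun z => m1 z * m1 z)
    with hN
  have hfin : ∀ (u v : Fin n) (M : ℕ), u ≠ v → 1 ≤ M → M * M ≤ N → 1 < ‖ι (x u)‖ →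
      1 < ‖ι (x v)‖ → q u ^ M = q v ^ M → ∃ u v : Fin n, u ≠ v ∧ ∃ m : ℕ, 1 ≤ m ∧ m ≤ N ∧
      ev2 (Psi m) ((x u : Qb) : ℂ) ((x v : Qb) : ℂ) = 0 := by
    intro u v M huv hM hMN hu hv hqq
    obtain ⟨g1, g2, g3⟩ := hq u hu
    obtain ⟨g4, g5, g6⟩ := hq v hv
    refine ⟨u, v, huv, M * M, Nat.mul_pos hM hM, hMN, ?_⟩
    have h1 := tq U Psi K hPK M M hM hM (q u) (q v) g1 g2 g4 g5 hqq
    rw [g3, g6, ← eh Qb K ι (Psi (M * M)) (x u) (x v), map_eq_zero] at h1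
    have h2 := eh Qb ℂ (algebraMap Qb ℂ) (Psi (M * M)) (x u) (x v)
    rw [h1, map_zero] at h2
    exact h2.symm
  have conc0 : ∀ a b c e, b ≠ a → b ≠ c → b ≠ e → e ≠ a → e ≠ c → ¬ sp a → ¬ sp b → ¬ sp c →
      ¬ sp e → Md (q a) (q b) → Md (q c) (q e) → ∃ u v : Fin n, u ≠ v ∧ ∃ m : ℕ, 1 ≤ m ∧
      m ≤ N ∧ ev2 (Psi m) ((x u : Qb) : ℂ) ((x v : Qb) : ℂ) = 0 := by
    intro a b c e k1 k2 k3 k4 k5 sa sb sc se M1 M2
    refine hfin a b (m0 (a, b, c, e)) k1.symm (hm0 _) ?_ (hbig a sa) (hbig b sb) ?_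
    · exact (Finset.le_sup (f := fun z => m0 z * m0 z) (Finset.mem_univ (a, b, c, e))).trans
        (le_max_left _ _)
    · refine hm0' (a, b, c, e) k1 k2 k3 k4 k5 (ι t) t₀ q ht₀ htt ?_ M1 M2
      rintro i (rfl | rfl | rfl | rfl)
      · exact ⟨(hnsp _ sa).1, (hnsp _ sa).2, hTq _ (hbig _ sa)⟩
      · exact ⟨(hnsp _ sb).1, (hnsp _ sb).2, hTq _ (hbig _ sb)⟩
      · exact ⟨(hnsp _ sc).1, (hnsp _ sc).2, hTq _ (hbig _ sc)⟩
      · exact ⟨(hnsp _ se).1, (hnsp _ se).2, hTq _ (hbig _ se)⟩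
  have conc1 : ∀ i b c e, i ≠ b → i ≠ c → i ≠ e → e ≠ b → e ≠ c → sp i → 1 < ‖ι (x i)‖ →
      Md (q i) (q b) → Md (q c) (q e) → ∃ u v : Fin n, u ≠ v ∧ ∃ m : ℕ, 1 ≤ m ∧
      m ≤ N ∧ ev2 (Psi m) ((x u : Qb) : ℂ) ((x v : Qb) : ℂ) = 0 := by
    intro i b c e k1 k2 k3 k4 k5 si hi M1 M2
    have sb : ¬ sp b := fun h => hun i b k1 si h
    have sc : ¬ sp c := fun h => hun i c k2 si h
    have se : ¬ sp e := fun h => hun i e k3 si h
    refine hfin c e (m1 (i, b, c, e)) k5.symm (hm1 _) ?_ (hbig c sc) (hbig e se) ?_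
    · exact (Finset.le_sup (f := fun z => m1 z * m1 z) (Finset.mem_univ (i, b, c, e))).trans
        (le_max_right _ _)
    · refine hm1' (i, b, c, e) k1 k2 k3 k4 k5 (ι t) t₀ q ht₀ htt si (hTq _ hi) ?_ M1 M2
      rintro j (rfl | rfl | rfl)
      · exact ⟨(hnsp _ sb).1, (hnsp _ sb).2, hTq _ (hbig _ sb)⟩
      · exact ⟨(hnsp _ sc).1, (hnsp _ sc).2, hTq _ (hbig _ sc)⟩
      · exact ⟨(hnsp _ se).1, (hnsp _ se).2, hTq _ (hbig _ se)⟩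
  rcases hat with ⟨i, j, k, hij, hjk, hik, I1, I2⟩ | ⟨i, j, k, m, hij, hik, him, hjk, hjm, hkm, I1, I2⟩
  · have M1 := hMd i j hij I1
    have M2 := hMd j k hjk I2
    have P1 := hpair i j hij I1
    have P2 := hpair j k hjk I2
    by_cases si : sp i
    · exact conc1 i j j k hij hij hik hjk.symm hjk.symm si P1.1 M1 M2
    by_cases sj : sp j
    · exact conc1 j i i k hij.symm hij.symm hjk hik.symm hik.symm sj P1.2.1 (md_symm M1)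
        (md_trans M1 M2)
    by_cases sk : sp k
    · exact conc1 k j j i hjk.symm hjk.symm hik.symm hij hij sk P2.2.1 (md_symm M2) (md_symm M1)
    · exact conc0 j i j k hij hij hik hjk.symm hjk.symm sj si sj sk (md_symm M1) M2
  · have M1 := hMd i j hij I1
    have M2 := hMd k m hkm I2
    have P1 := hpair i j hij I1
    have P2 := hpair k m hkm I2
    by_cases si : sp i
    · exact conc1 i j k m hij hik him hjm.symm hkm.symm si P1.1 M1 M2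
    by_cases sj : sp j
    · exact conc1 j i k m hij.symm hjk hjm him.symm hkm.symm sj P1.2.1 (md_symm M1) M2
    by_cases sk : sp k
    · exact conc1 k m i j hkm hik.symm hjk.symm hjm hij.symm sk P2.1 M2 M1
    by_cases sm : sp m
    · exact conc1 m k i j hkm.symm him.symm hjm.symm hjk hij.symm sm P2.2.1 (md_symm M2) M1
    · exact conc0 i j k m hij.symm hjk hjm him.symm hkm.symm si sj sk sm M1 M2

end Pool.Agent.ZPU.H79
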