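import Pool.Agent.ZPU.Stmts

/-!
Squad ZPU, row WXA: the fundamental relation.
-/

set_option autoImplicit false

namespace Pool.Agent.ZPU.H79

open Polynomial Pool.Agent.ZPT Pool.Agent.ZP3

/-- Estimates on `θ = ‖y‖`. -/
lemma theta (wwn : WWNStmt) (thb : THBStmt) {p : ℕ} (hp : p.Prime) {K : Type} [NormedField K]
    [CharZero K] [IsUltrametricDist K] (hE : Ext p K) {D : ℕ} (hD : 20 * (D + 1) < p) {a n : ℕ}
    {η : K} (ha : 1 ≤ a) (hη : IsPrimitiveRoot η (p ^ a)) {θ : ℝ} (h0 : 0 < θ) (h1 : θ < 1)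
    (hn : 1 ≤ n) (hθ : θ ^ n = ‖η - 1‖) : th p ≤ θ ∧ (p : ℝ)⁻¹ < θ ^ D ∧ (p : ℝ)⁻¹ ≤ θ ^ (D + 1) := by
  have hw := wwn p hp (by omega) K hE a η ha hη
  have ht := thb p hp (by omega)
  have a1 : th p ≤ θ := by
    calc th p ≤ ‖η - 1‖ := hw.2.1
      _ = θ ^ n := hθ.symm
      _ ≤ θ ^ 1 := pow_le_pow_of_le_one h0.le h1.le hn
      _ = θ := pow_one θ
  have a2 : (p : ℝ)⁻¹ ≤ θ ^ (D + 1) := by
    rw [← ht.1]
    calc th p ^ (p - 1) ≤ th p ^ (D + 1) :=
          pow_le_pow_of_le_one ht.2.1.le ht.2.2.1.le (by omega)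
      _ ≤ θ ^ (D + 1) := pow_le_pow_left₀ ht.2.1.le a1 _
  refine ⟨a1, ?_, a2⟩
  calc (p : ℝ)⁻¹ ≤ θ ^ (D + 1) := a2
    _ < θ ^ D := pow_lt_pow_right_of_lt_one₀ h0 h1 (by omega)

lemma tame_norm {p : ℕ} {K : Type} [NormedField K] {x : K} (hx : Tame p x) : ‖x‖ = 1 := by
  obtain ⟨M, hM, -, h⟩ := hx
  have h1 : ‖x‖ ^ M = 1 := by rw [← norm_pow, h, norm_one]
  exact (pow_eq_one_iff_of_nonneg (norm_nonneg _) (by omega)).1 h1

lemma ro_norm {K : Type} [NormedField K] {x : K} (hx : Ro x) : ‖x‖ = 1 := by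
  obtain ⟨M, hM, h⟩ := hx
  have h1 : ‖x‖ ^ M = 1 := by rw [← norm_pow, h, norm_one]
  exact (pow_eq_one_iff_of_nonneg (norm_nonneg _) (by omega)).1 h1

theorem wxa (wwn : WWNStmt) (thb : THBStmt) : WXAStmt := by
  intro p hp K _ _ _ hE k _ _ r hr D A B E₁ E₂ w₁ w₂ h hD t t₀ ζ x Q ω η a hW hζ hω ha hη
    τ o n e ξ M E hP
  have hθ0 := hP.y0
  have hθ1 := hW.ht
  have hth := theta wwn thb hp hE hD ha hη hθ0 hθ1 hP.n1 hP.yn
  have hw := wwn p hp (by omega) K hE a η ha hη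
  set y := t - t₀ with hy
  set θ := ‖y‖ with hθ
  set φ := ph p a with hφ
  have hpos : 0 < θ ^ D := pow_pos hθ0 D
  have hpinv : (0 : ℝ) < (p : ℝ)⁻¹ := inv_pos.2 (by exact_mod_cast hp.pos)
  have hεpos : 0 < (p : ℝ)⁻¹ / θ ^ D := div_pos hpinv hpos
  have hε1 : (p : ℝ)⁻¹ / θ ^ D < 1 := by
    rw [div_lt_one hpos]; exact hth.2.1
  refine ⟨hε1, ?_⟩
  have hy0 : y ≠ 0 := norm_pos_iff.1 hθ0
  have hp0 : (p : K) ≠ 0 := by exact_mod_cast hp.ne_zero
  have hpn : ‖(p : K)‖ = (p : ℝ)⁻¹ := by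
    have h := hE (p : ℚ)
    rw [padicNorm.padicNorm_p hp.one_lt] at h
    push_cast at h
    exact h
  have hωn := tame_norm hω
  have hξn := ro_norm hP.rx
  have key : ∀ (j : ℕ), j ≤ D → (p : ℝ)⁻¹ / θ ^ j ≤ (p : ℝ)⁻¹ / θ ^ D := by
    intro j hj
    exact div_le_div_of_nonneg_left hpinv.le hpos (pow_le_pow_of_le_one hθ0.le hθ1.le hj)
  -- (1)
  have hE2 : aeval t E₂ ≠ 0 := by
    intro h0; have := hW.nE; rw [h0, norm_zero] at this; exact zero_ne_one this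
  have hB0 : aeval t B ≠ 0 := by
    intro h0; have := hW.nB; rw [h0, norm_zero] at this; exact zero_ne_one this
  have hw20 : aeval t w₂ ≠ 0 := by
    intro h0; have := hW.n2; rw [h0, norm_zero] at this; exact zero_ne_one this
  have hω0 : ω ≠ 0 := by
    intro h0; rw [h0, norm_zero] at hωn; exact zero_ne_one hωn
  have n1 : ‖x / y ^ e‖ = 1 := by
    rw [norm_div, norm_pow, hP.ye, div_self (pow_pos hθ0 e).ne']
  have n1' : ‖evO E y / aeval t E₂‖ = 1 := by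
    rw [norm_div, hP.E1.1, hW.nE, div_one]
  have d1 : ‖x / y ^ e - evO E y / aeval t E₂‖ ≤ (p : ℝ)⁻¹ / θ ^ D := by
    have e1 : x / y ^ e - evO E y / aeval t E₂ =
        ((x * aeval t E₂ - aeval t E₁) + (aeval t E₁ - y ^ e * evO E y)) /
          (y ^ e * aeval t E₂) := by
      field_simp
      ring
    rw [e1, norm_div, norm_mul, norm_pow, hW.nE, mul_one]
    refine (div_le_div_of_nonneg_right ?_ (pow_pos hθ0 e).le).trans (key e hP.eD)
    exact (IsUltrametricDist.norm_add_le_max _ _).trans (max_le hW.hx hP.aE)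
  -- (2)
  have n2 : ‖(η - 1) / y ^ n‖ = 1 := by
    rw [norm_div, norm_pow, ← hP.yn, div_self (pow_pos hθ0 n).ne']
  have n2' : ‖evO M y / (ω * aeval t B)‖ = 1 := by
    rw [norm_div, norm_mul, hP.M1.1, hωn, hW.nB, one_mul, div_one]
  have d2 : ‖(η - 1) / y ^ n - evO M y / (ω * aeval t B)‖ ≤ (p : ℝ)⁻¹ / θ ^ D := by
    have e1 : (η - 1) / y ^ n - evO M y / (ω * aeval t B) =
        (((aeval t A - ω * aeval t B) - y ^ n * evO M y) - (aeval t A - ζ * aeval t B)) /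
          (y ^ n * (ω * aeval t B)) := by
      rw [hζ]
      field_simp
      ring
    rw [e1, norm_div, norm_mul, norm_mul, norm_pow, hωn, hW.nB, mul_one, mul_one]
    refine (div_le_div_of_nonneg_right ?_ (pow_pos hθ0 n).le).trans (key n hP.nD)
    rw [sub_eq_add_neg]
    refine (IsUltrametricDist.norm_add_le_max _ _).trans (max_le hP.aM ?_)
    rw [norm_neg]
    exact hW.hz
  -- (3)
  have n3 : ‖Q / (p : K) ^ h‖ = 1 := by
    rw [norm_div, norm_pow, hpn, hP.qh, div_self (pow_pos hpinv h).ne']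
  have n3' : ‖aeval t w₁ / aeval t w₂‖ = 1 := by
    rw [norm_div, hW.n1, hW.n2, div_one]
  have d3 : ‖Q / (p : K) ^ h - aeval t w₁ / aeval t w₂‖ ≤ (p : ℝ)⁻¹ / θ ^ D := by
    have e1 : Q / (p : K) ^ h - aeval t w₁ / aeval t w₂ =
        (Q * aeval t w₂ - (p : K) ^ h * aeval t w₁) / ((p : K) ^ h * aeval t w₂) := by
      field_simp
    rw [e1, norm_div, norm_mul, norm_pow, hpn, hW.n2, mul_one]
    have e2 : (p : ℝ)⁻¹ = ((p : ℝ)⁻¹) ^ (h + 1) / ((p : ℝ)⁻¹) ^ h := by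
      rw [pow_succ, mul_div_right_comm, div_self (pow_pos hpinv h).ne', one_mul]
    have e3 := div_le_div_of_nonneg_right hW.hQ (pow_pos hpinv h).le
    rw [← e2] at e3
    refine e3.trans ?_
    have := key 0 (Nat.zero_le D)
    rwa [pow_zero, div_one] at this
  have n4 : ‖(η - 1) ^ φ / (p : K)‖ = 1 := by
    rw [norm_div, norm_pow, hpn]
    have := hw.1
    rw [show p ^ (a - 1) * (p - 1) = φ from rfl] at this
    rw [this, div_self hpinv.ne']
  -- (4)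
  have ex : (x / y ^ e) ^ (h * n * φ) * ((η - 1) ^ φ / (p : K)) ^ (e * h) =
      ξ * ((Q / (p : K) ^ h) ^ e * ((η - 1) / y ^ n) ^ (e * h * φ)) := by
    simp only [div_pow]
    rw [hP.xx]
    have e1 : (y ^ e) ^ (h * n * φ) = (y ^ n) ^ (e * h * φ) := by
      rw [← pow_mul, ← pow_mul]
      congr 1
      ring
    have e2 : ((η - 1) ^ φ) ^ (e * h) = (η - 1) ^ (e * h * φ) := by
      rw [← pow_mul]
      congr 1
      ring
    have e3 : ((p : K) ^ h) ^ e = (p : K) ^ (e * h) := by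
      rw [← pow_mul]
      congr 1
      ring
    rw [e1, e2, e3]
    ring
  -- conclusion
  set ε := (p : ℝ)⁻¹ / θ ^ D with hε
  have pown : ∀ {u u' : K}, ‖u‖ = 1 → ‖u'‖ = 1 → ‖u - u'‖ ≤ ε → ∀ m : ℕ,
      ‖u ^ m - u' ^ m‖ ≤ ε ∧ ‖u ^ m‖ = 1 := by
    intro u u' hu hu' huu m
    refine ⟨?_, by rw [norm_pow, hu, one_pow]⟩
    induction m with
    | zero => simpa using hεpos.le
    | succ m ih =>
      have e1 : u ^ (m + 1) - u' ^ (m + 1) = u ^ m * (u - u') + (u ^ m - u' ^ m) * u' := by ring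
      rw [e1]
      refine (IsUltrametricDist.norm_add_le_max _ _).trans (max_le ?_ ?_)
      · rw [norm_mul, norm_pow, hu, one_pow, one_mul]
        exact huu
      · rw [norm_mul, hu', mul_one]
        exact ih
  have p1 := (pown n1 n1' d1 (h * n * φ)).1
  have p2 := (pown n2 n2' d2 (e * h * φ)).1
  have p3 := (pown n3 n3' d3 e).1
  have e5 : (evO E y / aeval t E₂) ^ (h * n * φ) * ((η - 1) ^ φ / (p : K)) ^ (e * h) -
      ξ * (aeval t w₁ / aeval t w₂) ^ e * (evO M y / (ω * aeval t B)) ^ (e * h * φ) =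
      -(((x / y ^ e) ^ (h * n * φ) - (evO E y / aeval t E₂) ^ (h * n * φ)) *
        ((η - 1) ^ φ / (p : K)) ^ (e * h)) +
      ξ * ((Q / (p : K) ^ h) ^ e * (((η - 1) / y ^ n) ^ (e * h * φ) -
        (evO M y / (ω * aeval t B)) ^ (e * h * φ)) +
        ((Q / (p : K) ^ h) ^ e - (aeval t w₁ / aeval t w₂) ^ e) *
          (evO M y / (ω * aeval t B)) ^ (e * h * φ)) := by
    linear_combination ex
  rw [e5]
  refine (IsUltrametricDist.norm_add_le_max _ _).trans (max_le ?_ ?_)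
  · rw [norm_neg, norm_mul, norm_pow, n4, one_pow, mul_one]
    exact p1
  · rw [norm_mul, hξn, one_mul]
    refine (IsUltrametricDist.norm_add_le_max _ _).trans (max_le ?_ ?_)
    · rw [norm_mul, norm_pow, n3, one_pow, one_mul]
      exact p2
    · rw [norm_mul, norm_pow _ (e * h * φ), n2', one_pow, mul_one]
      exact p3

end Pool.Agent.ZPU.H79
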