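import Pool.Agent.Helper79_ZPU.Com

/-!
Squad ZPU, row WXB: the root of unity `ξ`.
-/

set_option autoImplicit false

namespace Pool.Agent.ZPU.H79

open Polynomial Pool.Agent.ZPT Pool.Agent.ZP3

/-- `π^φ/p` is close to `-1`. -/
lemma pie_near (pie : PIEStmt) {p : ℕ} (hp : p.Prime) (h3 : 3 ≤ p) {K : Type} [NormedField K]
    [CharZero K] [IsUltrametricDist K] (hE : Ext p K) {a : ℕ} {η : K} (ha : 1 ≤ a)
    (hη : IsPrimitiveRoot η (p ^ a)) : ‖(η - 1) ^ ph p a / (p : K) - (-1)‖ ≤ th p := by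
  have h := (pie p hp h3 K hE a η ha hη).1
  have hpn : ‖(p : K)‖ = (p : ℝ)⁻¹ := by
    have h := hE (p : ℚ)
    rw [padicNorm.padicNorm_p hp.one_lt] at h
    push_cast at h
    exact h
  have hp0 : (p : K) ≠ 0 := by exact_mod_cast hp.ne_zero
  have hpinv : (0 : ℝ) < (p : ℝ)⁻¹ := inv_pos.2 (by exact_mod_cast hp.pos)
  have e1 : (η - 1) ^ ph p a / (p : K) - (-1) = ((η - 1) ^ ph p a + (p : K)) / (p : K) := by
    field_simp
    ring
  rw [e1, norm_div, hpn, div_le_iff₀ hpinv]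
  exact h

theorem wxb (wxa : WXAStmt) (pie : PIEStmt) (rwp : RWPStmt) (spl : SPLStmt) (tef : TEFStmt)
    (urr : URRStmt) (urp : URPStmt) (evo : EVOStmt) (wwn : WWNStmt) (thb : THBStmt) :
    WXBStmt := by
  intro p hp K _ _ _ hE k _ _ r hr D A B E₁ E₂ w₁ w₂ h hD t t₀ ζ x Q ω η a hW hζ hω ha hη
    τ o n e ξ M E hP
  have hp3 : 3 ≤ p := by omega
  obtain ⟨hε1, hmain⟩ := wxa p hp K hE k r hr D A B E₁ E₂ w₁ w₂ h hD t t₀ ζ x Q ω η a hW hζ hω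
    ha hη τ o n e ξ M E hP
  have hθ0 := hP.y0
  have hθ1 := hW.ht
  have hth := theta wwn thb hp hE hD ha hη hθ0 hθ1 hP.n1 hP.yn
  have hw := wwn p hp (by omega) K hE a η ha hη
  have hpie := pie_near pie hp hp3 hE ha hη
  have vE := val_t0 urr urp evo tef hp hE hW.te hθ1 E₂ hW.nE
  have vB := val_t0 urr urp evo tef hp hE hW.te hθ1 B hW.nB
  have v1 := val_t0 urr urp evo tef hp hE hW.te hθ1 w₁ hW.n1
  have v2 := val_t0 urr urp evo tef hp hE hW.te hθ1 w₂ hW.n2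
  have hωn := tame_norm hω
  have hωu := ((tef p hp K hE).2.1 ω hω).2.1
  have hMu : Uu p (evO M (0 : K)) := ⟨by rw [evO_zero]; exact hP.uM 0, hP.M1.2.1⟩
  have hEu : Uu p (evO E (0 : K)) := ⟨by rw [evO_zero]; exact hP.uE 0, hP.E1.2.1⟩
  have hξn := ro_norm hP.rx
  set y := t - t₀ with hy
  set θ := ‖y‖ with hθ
  set φ := ph p a with hφ
  have hpinv : (0 : ℝ) < (p : ℝ)⁻¹ := inv_pos.2 (by exact_mod_cast hp.pos)
  have hεθ : (p : ℝ)⁻¹ / θ ^ D ≤ θ := by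
    rw [div_le_iff₀ (pow_pos hθ0 D), mul_comm, ← pow_succ]
    exact hth.2.2
  have hpn : ‖(p : K)‖ = (p : ℝ)⁻¹ := by
    have h := hE (p : ℚ)
    rw [padicNorm.padicNorm_p hp.one_lt] at h
    push_cast at h
    exact h
  have n4 : ‖(η - 1) ^ φ / (p : K)‖ = 1 := by
    rw [norm_div, norm_pow, hpn]
    have := hw.1
    rw [show p ^ (a - 1) * (p - 1) = φ from rfl] at this
    rw [this, div_self hpinv.ne']
  -- the unit u
  have nE' : ‖aeval t E₂‖ = 1 := hW.nE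
  have nωB : ‖ω * aeval t B‖ = 1 := by rw [norm_mul, hωn, hW.nB, one_mul]
  have uωB : Uu p (ω * aeval t₀ B) := uu_mul urr hp hE hωu vB.1
  have uβ : Uu p (evO E (0 : K) / aeval t₀ E₂) := uu_div urr hp hE hEu vE.1
  have uα : Uu p (evO M (0 : K) / (ω * aeval t₀ B)) := uu_div urr hp hE hMu uωB
  have uw : Uu p (aeval t₀ w₁ / aeval t₀ w₂) := uu_div urr hp hE v1.1 v2.1
  have nβ : ‖evO E y / aeval t E₂‖ = 1 := by rw [norm_div, hP.E1.1, nE', div_one]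
  have nα : ‖evO M y / (ω * aeval t B)‖ = 1 := by rw [norm_div, hP.M1.1, nωB, div_one]
  have nw : ‖aeval t w₁ / aeval t w₂‖ = 1 := by rw [norm_div, hW.n1, hW.n2, div_one]
  have dβ : ‖evO E y / aeval t E₂ - evO E (0 : K) / aeval t₀ E₂‖ ≤ θ :=
    near_div hP.E1.1 nE' vE.1.2 hP.E1.2.2 vE.2.1
  have dωB : ‖ω * aeval t B - ω * aeval t₀ B‖ ≤ θ := by
    rw [← mul_sub, norm_mul, hωn, one_mul]
    exact vB.2.1
  have dα : ‖evO M y / (ω * aeval t B) - evO M (0 : K) / (ω * aeval t₀ B)‖ ≤ θ :=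
    near_div hP.M1.1 nωB uωB.2 hP.M1.2.2 dωB
  have dw : ‖aeval t w₁ / aeval t w₂ - aeval t₀ w₁ / aeval t₀ w₂‖ ≤ θ :=
    near_div hW.n1 hW.n2 v2.1.2 v1.2.1 v2.2.1
  have dP : ‖(η - 1) ^ φ / (p : K) - (-1)‖ ≤ θ := hpie.trans hth.1
  set β := evO E y / aeval t E₂
  set β₀ := evO E (0 : K) / aeval t₀ E₂
  set α := evO M y / (ω * aeval t B)
  set α₀ := evO M (0 : K) / (ω * aeval t₀ B)
  set w := aeval t w₁ / aeval t w₂
  set w₀ := aeval t₀ w₁ / aeval t₀ w₂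
  set P := (η - 1) ^ φ / (p : K)
  set Z₀ := w₀ ^ e * α₀ ^ (e * h * φ) with hZ₀
  set V₀ := β₀ ^ (h * n * φ) * (-1) ^ (e * h) with hV₀
  have uZ₀ : Uu p Z₀ := uu_mul urr hp hE (uu_pow urr hp hE uw e) (uu_pow urr hp hE uα _)
  have uV₀ : Uu p V₀ := uu_mul urr hp hE (uu_pow urr hp hE uβ _)
    (uu_pow urr hp hE (uu_neg_one urr hp hE) _)
  have dV : ‖β ^ (h * n * φ) * P ^ (e * h) - V₀‖ ≤ θ := by
    refine near_mul (by rw [norm_pow, nβ, one_pow]) (by simp)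
      (near_pow nβ uβ.2 dβ _) (near_pow n4 (by simp) dP _)
  have dZ : ‖w ^ e * α ^ (e * h * φ) - Z₀‖ ≤ θ :=
    near_mul (by rw [norm_pow, nw, one_pow]) (by rw [norm_pow, uα.2, one_pow])
      (near_pow nw uw.2 dw _) (near_pow nα uα.2 dα _)
  have dξ : ‖ξ * Z₀ - V₀‖ ≤ θ := by
    have e1 : ξ * Z₀ - V₀ = -(ξ * (w ^ e * α ^ (e * h * φ) - Z₀)) +
        (-(β ^ (h * n * φ) * P ^ (e * h) - ξ * w ^ e * α ^ (e * h * φ)) +
          (β ^ (h * n * φ) * P ^ (e * h) - V₀)) := by ring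
    rw [e1]
    refine (IsUltrametricDist.norm_add_le_max _ _).trans (max_le ?_ ?_)
    · rw [norm_neg, norm_mul, hξn, one_mul]; exact dZ
    · refine (IsUltrametricDist.norm_add_le_max _ _).trans (max_le ?_ dV)
      rw [norm_neg]
      exact hmain.trans hεθ
  have hZ0 : Z₀ ≠ 0 := by
    intro h0; have := uZ₀.2; rw [h0, norm_zero] at this; exact zero_ne_one this
  have uu : Uu p (V₀ / Z₀) := uu_div urr hp hE uV₀ uZ₀
  have du : ‖ξ - V₀ / Z₀‖ ≤ θ := by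
    have e1 : ξ - V₀ / Z₀ = (ξ * Z₀ - V₀) / Z₀ := by field_simp
    rw [e1, norm_div, uZ₀.2, div_one]
    exact dξ
  obtain ⟨ξt, v, hξv, hξt, hv⟩ := spl p hp K ξ hP.rx
  have hξtu := ((tef p hp K hE).2.1 ξt hξt).2.1
  have hv1 : ‖v - 1‖ < 1 := by
    rcases hv with rfl | ⟨b, hb, hvb⟩
    · simp
    · exact (wwn p hp hp3 K hE b v hb hvb).2.2.1
  have d1 : ‖ξt - V₀ / Z₀‖ < 1 := by
    have e1 : ξt - V₀ / Z₀ = (ξ - V₀ / Z₀) + (-(ξt * (v - 1))) := by rw [hξv]; ring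
    rw [e1]
    refine (IsUltrametricDist.norm_add_le_max _ _).trans_lt (max_lt (du.trans_lt hθ1) ?_)
    rw [norm_neg, norm_mul, hξtu.2, one_mul]
    exact hv1
  have d2 : ‖ξt - V₀ / Z₀‖ ≤ θ := by
    have h1 := (urr p hp K hE).2.2.2.1 _ ((urr p hp K hE).1 _ _ hξtu.1 uu.1).2.2.2 d1
    refine h1.trans (hth.2.2.trans ?_)
    calc θ ^ (D + 1) ≤ θ ^ 1 := pow_le_pow_of_le_one hθ0.le hθ1.le (by omega)
      _ = θ := pow_one θ
  have d3 : ‖v - 1‖ ≤ θ := by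
    have e1 : ‖v - 1‖ = ‖ξt * (v - 1)‖ := by rw [norm_mul, hξtu.2, one_mul]
    have e2 : ξt * (v - 1) = (ξ - V₀ / Z₀) + (-(ξt - V₀ / Z₀)) := by rw [hξv]; ring
    rw [e1, e2]
    refine (IsUltrametricDist.norm_add_le_max _ _).trans (max_le du ?_)
    rw [norm_neg]
    exact d2
  have d4 : ‖v - 1‖ ^ n ≤ ‖η - 1‖ := by
    rw [← hP.yn]
    exact pow_le_pow_left₀ (norm_nonneg _) d3 n
  have hnp : n < p := by
    have := hP.nD
    omega
  obtain ⟨s, hs⟩ := rwp p hp hp3 K hE a n η v ha hη hv hnp d4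
  exact ⟨ξt, s, hξt, by rw [hξv, hs]⟩

end Pool.Agent.ZPU.H79
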