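import Pool.Agent.Helper79_ZPU.Com

/-!
Squad ZPU, row WZ2: the case `a ≥ 2` is impossible.
-/

set_option autoImplicit false

namespace Pool.Agent.ZPU.H79

open Polynomial Pool.Agent.ZPT Pool.Agent.ZP3

/-- The bracket of AL, reduced and shifted. -/
lemma tt_al (shr : SHRStmt) {p : ℕ} (hp : p.Prime) {k : Type} [Field k] [CharP k p] (c : k)
    (A B w₁ w₂ : (ZMod p)[X]) (e s : ℕ) :
    ((e : k[X]) * (wr (tt p c w₁) (tt p c w₂) * (tt p c A * tt p c B)) +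
      (s : k[X]) * (wr (tt p c A) (tt p c B) * (tt p c w₁ * tt p c w₂))) =
    tt p c (C (e : ZMod p) * (wr w₁ w₂ * (A * B)) + C (s : ZMod p) * (wr A B * (w₁ * w₂))) := by
  have h := (shr p hp k).1 c
  have hC := (shr p hp k).2.1 c
  have hC' : ∀ m : ℕ, tt p c (C (m : ZMod p)) = (m : k[X]) := by
    intro m
    rw [hC, map_natCast, C_eq_natCast]
  rw [(h _ _).1, (h (C (e : ZMod p)) _).2.1, (h (C (s : ZMod p)) _).2.1, (h (wr w₁ w₂) _).2.1,
    (h A B).2.1, (h (wr A B) _).2.1, (h w₁ w₂).2.1, hC', hC', (h w₁ w₂).2.2.2.1,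
    (h A B).2.2.2.1]

theorem wz2 (wzf : WZFStmt) (nwt : NWTStmt) (fml : FMLStmt) (shr : SHRStmt) (evo : EVOStmt)
    (urp : URPStmt) (urr : URRStmt) (tef : TEFStmt) : WZ2Stmt := by
  intro p hp K _ _ _ hE k _ _ r hr D A B E₁ E₂ w₁ w₂ h hD hA hB hw₁ hw₂ hAL t t₀ ζ x Q ω η a
    hW hζ hω ha hη τ o n e ξ M E hP
  obtain ⟨hlt, κ, ξt, s, hκ, hξt, hmain⟩ := wzf p hp K hE k r hr D A B E₁ E₂ w₁ w₂ h hD t t₀ ζ x
    Q ω η a hW hζ hω ha hη τ o n e ξ M E hP
  have hξtu := ((tef p hp K hE).2.1 ξt hξt).2.1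
  have hθ0 := hP.y0
  have hθ1 := hW.ht
  have vA := val_t0 urr urp evo tef hp hE hW.te hθ1 A hW.nA
  have vB := val_t0 urr urp evo tef hp hE hW.te hθ1 B hW.nB
  have v1 := val_t0 urr urp evo tef hp hE hW.te hθ1 w₁ hW.n1
  have v2 := val_t0 urr urp evo tef hp hE hW.te hθ1 w₂ hW.n2
  have hτ : Ur p (τ : K) := by rw [hP.τ0]; exact ((tef p hp K hE).1 t₀ hW.te).1
  have hyτ : (t - t₀) + (τ : K) = t := by rw [hP.τ0]; ring
  obtain ⟨ev1, evp, evC, -, evs, -, -⟩ := evo K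
  obtain ⟨up1, upp, upC, -, ups, -⟩ := urp p hp K hE
  have hsh := (shr p hp k).2.2 K r hr
  let κ' : OO K := ⟨κ, hκ.2.le⟩
  let ξ' : OO K := ⟨ξt, hξtu.2.le⟩
  set P : (OO K)[X] := C κ' * sh w₂ τ ^ e * sh B τ ^ s - C ξ' * sh w₁ τ ^ e * sh A τ ^ s with hPdef
  have hUr : UrP p P := by
    refine (up1 _ _ ?_ ?_).2.2
    · refine (up1 _ _ (up1 _ _ (upC κ' hκ.1) (upp _ (ups w₂ τ hτ) e)).2.1
        (upp _ (ups B τ hτ) s)).2.1
    · refine (up1 _ _ (up1 _ _ (upC ξ' hξtu.1) (upp _ (ups w₁ τ hτ) e)).2.1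
        (upp _ (ups A τ hτ) s)).2.1
  have hev : evO P (t - t₀) = κ * aeval t w₂ ^ e * aeval t B ^ s -
      ξt * aeval t w₁ ^ e * aeval t A ^ s := by
    rw [hPdef, (ev1 _ _ _).2.2, (ev1 _ _ _).2.1, (ev1 _ _ _).2.1, (ev1 _ _ _).2.1,
      (ev1 _ _ _).2.1, evp, evp, evp, evp, evs, evs, evs, evs, evC, evC, hyτ]
  have hdiv : X ^ (p - 1 + 1) ∣ P.map r := by
    refine nwt p hp K hE k r hr P (t - t₀) (p - 1) hUr hθ1 hlt ?_
    rw [hev]
    refine hmain.trans_lt ?_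
    exact pow_lt_pow_right_of_lt_one₀ hθ0 hθ1 (by have := hp.pos; omega)
  have hmap : P.map r = C (r κ') * tt p (r τ) (bar p w₂) ^ e * tt p (r τ) (bar p B) ^ s -
      C (r ξ') * tt p (r τ) (bar p w₁) ^ e * tt p (r τ) (bar p A) ^ s := by
    rw [hPdef]
    simp only [Polynomial.map_sub, Polynomial.map_mul, Polynomial.map_pow, Polynomial.map_C,
      (hsh _ τ).1]
  rw [hmap] at hdiv
  have h1 := fml.1 k _ _ _ hdiv
  have hne : ∀ F : ℤ[X], Uu p (aeval t₀ F) → (tt p (r τ) (bar p F)).coeff 0 ≠ 0 := by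
    intro F hF h0
    have := ((hsh F τ).2).2 h0
    rw [hP.τ0, hF.2] at this
    exact lt_irrefl _ this
  have hrκ : r κ' ≠ 0 := by
    intro h0
    have := (hr κ').1 h0
    rw [show ((κ' : OO K) : K) = κ from rfl, hκ.2] at this
    exact lt_irrefl _ this
  have hrξ : r ξ' ≠ 0 := by
    intro h0
    have := (hr ξ').1 h0
    rw [show ((ξ' : OO K) : K) = ξt from rfl, hξtu.2] at this
    exact lt_irrefl _ this
  have h2 := fml.2.2.2.2.1 k (r κ') (r ξ') e s (tt p (r τ) (bar p A)) (tt p (r τ) (bar p B))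
    (tt p (r τ) (bar p w₁)) (tt p (r τ) (bar p w₂))
  have h3 := Dvd.dvd.mul_left h1 (tt p (r τ) (bar p w₁) * tt p (r τ) (bar p w₂) *
    (tt p (r τ) (bar p A) * tt p (r τ) (bar p B)))
  rw [h2, dvd_neg] at h3
  rw [Nat.add_sub_cancel] at h3
  have h4 := fml.2.1 k (p - 1) _ _ ?_ h3
  swap
  · simp only [coeff_zero_eq_eval_zero, eval_pow, eval_mul, eval_C]
    simp only [← coeff_zero_eq_eval_zero]
    refine mul_ne_zero (mul_ne_zero (mul_ne_zero hrκ hrξ) (pow_ne_zero _ (mul_ne_zero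
      (hne w₁ v1.1) (hne w₂ v2.1)))) (pow_ne_zero _ (mul_ne_zero (hne A vA.1) (hne B vB.1)))
  have dg : ∀ F : ℤ[X], F.natDegree ≤ D → (tt p (r τ) (bar p F)).natDegree ≤ D := by
    intro F hF
    rw [((shr p hp k).1 (r τ) (bar p F) 0).2.2.2.2.2.1]
    exact (natDegree_map_le).trans hF
  have dw := fml.2.2.2.2.2 k
  have h5 := fml.2.2.1 k (p - 1) _ h4 ?_
  swap
  · refine (natDegree_add_le _ _).trans_lt (max_lt ?_ ?_)
    · refine (natDegree_mul_le).trans_lt ?_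
      rw [natDegree_natCast, zero_add]
      refine (natDegree_mul_le).trans_lt ?_
      have q1 := dw D D _ _ (dg w₁ hw₁) (dg w₂ hw₂)
      have q2 := (natDegree_mul_le (p := tt p (r τ) (bar p A)) (q := tt p (r τ) (bar p B)))
      have q3 := dg A hA
      have q4 := dg B hB
      omega
    · refine (natDegree_mul_le).trans_lt ?_
      rw [natDegree_natCast, zero_add]
      refine (natDegree_mul_le).trans_lt ?_
      have q1 := dw D D _ _ (dg A hA) (dg B hB)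
      have q2 := (natDegree_mul_le (p := tt p (r τ) (bar p w₁)) (q := tt p (r τ) (bar p w₂)))
      have q3 := dg w₁ hw₁
      have q4 := dg w₂ hw₂
      omega
  rw [tt_al shr hp] at h5
  have h6 := ((shr p hp k).1 (r τ) _ 0).2.2.2.2.2.2.1.1 h5
  exact hAL e hP.e1 (by have := hP.eD; omega) (s : ZMod p) h6

end Pool.Agent.ZPU.H79
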