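import Pool.Agent.Helper79_ZPU.WXB

/-!
Squad ZPU, row WZF: the relation for `a ≥ 2`.
-/

set_option autoImplicit false

namespace Pool.Agent.ZPU.H79

open Polynomial Pool.Agent.ZPT Pool.Agent.ZP3

/-- For `a ≥ 2` the number `θ ^ p` is at least `th p`. -/
lemma theta2 (wwn : WWNStmt) (thb : THBStmt) {p : ℕ} (hp : p.Prime) (h5 : 5 ≤ p) {K : Type}
    [NormedField K] [CharZero K] [IsUltrametricDist K] (hE : Ext p K) {a n : ℕ}
    {η : K} (ha : 2 ≤ a) (hη : IsPrimitiveRoot η (p ^ a)) {θ : ℝ} (h0 : 0 < θ) (h1 : θ < 1)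
    (hn : 1 ≤ n) (hθ : θ ^ n = ‖η - 1‖) : th p ≤ θ ^ p := by
  have hw := wwn p hp (by omega) K hE a η (by omega) hη
  have ht := thb p hp h5
  have b0 : 0 ≤ ‖η - 1‖ := norm_nonneg _
  have a1 : ‖η - 1‖ ≤ θ := by
    calc ‖η - 1‖ = θ ^ n := hθ.symm
      _ ≤ θ ^ 1 := pow_le_pow_of_le_one h0.le h1.le hn
      _ = θ := pow_one θ
  have a2 : ‖η - 1‖ ^ p ≤ θ ^ p := pow_le_pow_left₀ b0 a1 p
  refine le_trans ?_ a2
  by_contra hlt
  push Not at hlt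
  have a3 : (‖η - 1‖ ^ p) ^ (p - 1) < th p ^ (p - 1) :=
    pow_lt_pow_left₀ hlt (pow_nonneg b0 p) (by omega)
  have a4 : ‖η - 1‖ ^ (p ^ (a - 1) * (p - 1)) ≤ (‖η - 1‖ ^ p) ^ (p - 1) := by
    rw [← pow_mul]
    refine pow_le_pow_of_le_one b0 hw.2.2.1.le ?_
    refine Nat.mul_le_mul_right _ ?_
    calc p = p ^ 1 := (pow_one p).symm
      _ ≤ p ^ (a - 1) := Nat.pow_le_pow_right hp.pos (by omega)
  rw [hw.1] at a4
  rw [ht.1] at a3
  exact absurd (a4.trans_lt a3) (lt_irrefl _)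

theorem wzf (wxa : WXAStmt) (wxb : WXBStmt) (pie : PIEStmt) (rel : RELStmt) (tef : TEFStmt)
    (urr : URRStmt) (urp : URPStmt) (evo : EVOStmt) (wwn : WWNStmt) (thb : THBStmt) :
    WZFStmt := by
  intro p hp K _ _ _ hE k _ _ r hr D A B E₁ E₂ w₁ w₂ h hD t t₀ ζ x Q ω η a hW hζ hω ha hη
    τ o n e ξ M E hP
  have hp3 : 3 ≤ p := by omega
  have hp5 : 5 ≤ p := by omega
  obtain ⟨hε1, hmain⟩ := wxa p hp K hE k r hr D A B E₁ E₂ w₁ w₂ h hD t t₀ ζ x Q ω η a hW hζ hω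
    (by omega) hη τ o n e ξ M E hP
  obtain ⟨ξt, s, hξt, hξs⟩ := wxb p hp K hE k r hr D A B E₁ E₂ w₁ w₂ h hD t t₀ ζ x Q ω η a hW hζ
    hω (by omega) hη τ o n e ξ M E hP
  have hθ0 := hP.y0
  have hθ1 := hW.ht
  have hth := theta wwn thb hp hE hD (by omega) hη hθ0 hθ1 hP.n1 hP.yn
  have hth2 := theta2 wwn thb hp hp5 hE ha hη hθ0 hθ1 hP.n1 hP.yn
  have hw := wwn p hp (by omega) K hE a η (by omega) hη
  have hpie := pie_near pie hp hp3 hE (by omega : 1 ≤ a) hη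
  have ht := thb p hp hp5
  have vE := val_t0 urr urp evo tef hp hE hW.te hθ1 E₂ hW.nE
  have vB := val_t0 urr urp evo tef hp hE hW.te hθ1 B hW.nB
  have hωn := tame_norm hω
  have hωu := ((tef p hp K hE).2.1 ω hω).2.1
  have hξtu := ((tef p hp K hE).2.1 ξt hξt).2.1
  have hMu : Uu p (evO M (0 : K)) := ⟨by rw [evO_zero]; exact hP.uM 0, hP.M1.2.1⟩
  have hEu : Uu p (evO E (0 : K)) := ⟨by rw [evO_zero]; exact hP.uE 0, hP.E1.2.1⟩
  have hξn := ro_norm hP.rx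
  have hηn : ‖η‖ = 1 := by
    have h1 : η ^ (p ^ a) = 1 := hη.pow_eq_one
    exact ro_norm ⟨p ^ a, Nat.one_le_pow _ _ hp.pos, h1⟩
  set y := t - t₀ with hy
  set θ := ‖y‖ with hθ
  set φ := ph p a with hφ
  have hpinv : (0 : ℝ) < (p : ℝ)⁻¹ := inv_pos.2 (by exact_mod_cast hp.pos)
  have hthp : (p : ℝ)⁻¹ < th p := by
    calc (p : ℝ)⁻¹ = th p ^ (p - 1) := ht.1.symm
      _ < th p ^ 1 := pow_lt_pow_right_of_lt_one₀ ht.2.1 ht.2.2.1 (by omega)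
      _ = th p := pow_one _
  have hpp : (p : ℝ)⁻¹ ≤ θ ^ p := hthp.le.trans hth2
  have hlt : (p : ℝ)⁻¹ < θ ^ (p - 1) := by
    refine hpp.trans_lt ?_
    exact pow_lt_pow_right_of_lt_one₀ hθ0 hθ1 (by omega)
  refine ⟨hlt, ?_⟩
  have hεθ : (p : ℝ)⁻¹ / θ ^ D ≤ θ ^ p := by
    rw [div_le_iff₀ (pow_pos hθ0 D), ← pow_add]
    calc (p : ℝ)⁻¹ = th p ^ (p - 1) := ht.1.symm
      _ ≤ (θ ^ p) ^ (p - 1) := pow_le_pow_left₀ ht.2.1.le hth2 _
      _ = θ ^ (p * (p - 1)) := by rw [← pow_mul]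
      _ ≤ θ ^ (p + D) := by
        refine pow_le_pow_of_le_one hθ0.le hθ1.le ?_
        have h1 : p * 2 ≤ p * (p - 1) := Nat.mul_le_mul_left p (by omega)
        omega
  have hpn : ‖(p : K)‖ = (p : ℝ)⁻¹ := by
    have h := hE (p : ℚ)
    rw [padicNorm.padicNorm_p hp.one_lt] at h
    push_cast at h
    exact h
  have n4 : ‖(η - 1) ^ φ / (p : K)‖ = 1 := by
    rw [norm_div, norm_pow, hpn]
    have := hw.1
    rw [show p ^ (a - 1) * (p - 1) = φ from rfl] at this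
    rw [this, div_self hpinv.ne']
  have nE' : ‖aeval t E₂‖ = 1 := hW.nE
  have nωB : ‖ω * aeval t B‖ = 1 := by rw [norm_mul, hωn, hW.nB, one_mul]
  have uωB : Uu p (ω * aeval t₀ B) := uu_mul urr hp hE hωu vB.1
  have uβ : Uu p (evO E (0 : K) / aeval t₀ E₂) := uu_div urr hp hE hEu vE.1
  have uα : Uu p (evO M (0 : K) / (ω * aeval t₀ B)) := uu_div urr hp hE hMu uωB
  have nβ : ‖evO E y / aeval t E₂‖ = 1 := by rw [norm_div, hP.E1.1, nE', div_one]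
  have nα : ‖evO M y / (ω * aeval t B)‖ = 1 := by rw [norm_div, hP.M1.1, nωB, div_one]
  have nw : ‖aeval t w₁ / aeval t w₂‖ = 1 := by rw [norm_div, hW.n1, hW.n2, div_one]
  have dβ : ‖evO E y / aeval t E₂ - evO E (0 : K) / aeval t₀ E₂‖ ≤ θ :=
    near_div hP.E1.1 nE' vE.1.2 hP.E1.2.2 vE.2.1
  have dωB : ‖ω * aeval t B - ω * aeval t₀ B‖ ≤ θ := by
    rw [← mul_sub, norm_mul, hωn, one_mul]
    exact vB.2.1
  have dα : ‖evO M y / (ω * aeval t B) - evO M (0 : K) / (ω * aeval t₀ B)‖ ≤ θ :=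
    near_div hP.M1.1 nωB uωB.2 hP.M1.2.2 dωB
  have dP : ‖(η - 1) ^ φ / (p : K) - (-1)‖ ≤ θ ^ p := hpie.trans hth2
  -- η close to A/(ω B)
  have dη : ‖η - aeval t A / (ω * aeval t B)‖ ≤ θ ^ p := by
    have hωB0 : ω * aeval t B ≠ 0 := by
      intro h0; rw [h0, norm_zero] at nωB; exact zero_ne_one nωB
    have e1 : η - aeval t A / (ω * aeval t B) =
        -(aeval t A - ζ * aeval t B) / (ω * aeval t B) := by
      have hω0 : ω ≠ 0 := by rintro rfl; simp at hωB0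
      have hB0 : aeval t B ≠ 0 := by intro h0; apply hωB0; rw [h0, mul_zero]
      rw [hζ]
      field_simp
      ring
    rw [e1, norm_div, norm_neg, nωB, div_one]
    exact hW.hz.trans hpp
  have nA' : ‖aeval t A / (ω * aeval t B)‖ = 1 := by rw [norm_div, hW.nA, nωB, div_one]
  have hωB0 : ω * aeval t B ≠ 0 := by
    intro h0; rw [h0, norm_zero] at nωB; exact zero_ne_one nωB
  have hw20 : aeval t w₂ ≠ 0 := by
    intro h0; have := hW.n2; rw [h0, norm_zero] at this; exact zero_ne_one this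
  set β := evO E y / aeval t E₂
  set β₀ := evO E (0 : K) / aeval t₀ E₂
  set α := evO M y / (ω * aeval t B)
  set α₀ := evO M (0 : K) / (ω * aeval t₀ B)
  set P := (η - 1) ^ φ / (p : K)
  -- φ = p φ'
  obtain ⟨φ', hφ'⟩ : ∃ φ', φ = p * φ' := by
    refine ⟨p ^ (a - 2) * (p - 1), ?_⟩
    rw [hφ]
    unfold ph
    have : p ^ (a - 1) = p * p ^ (a - 2) := by
      rw [← pow_succ']
      congr 1
      omega
    rw [this]
    ring
  have dβp : ‖β ^ p - β₀ ^ p‖ ≤ θ ^ p :=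
    (rel p hp K hE β β₀ β β₀ nβ uβ.2 nβ uβ.2 θ dβ dβ).2.2.2 hθ1 hlt.le
  have dαp : ‖α ^ p - α₀ ^ p‖ ≤ θ ^ p :=
    (rel p hp K hE α α₀ α α₀ nα uα.2 nα uα.2 θ dα dα).2.2.2 hθ1 hlt.le
  have dβN : ‖β ^ (h * n * φ) - β₀ ^ (h * n * φ)‖ ≤ θ ^ p := by
    have e1 : h * n * φ = p * (h * n * φ') := by rw [hφ']; ring
    rw [e1, pow_mul β p, pow_mul β₀ p]
    exact near_pow (by rw [norm_pow, nβ, one_pow]) (by rw [norm_pow, uβ.2, one_pow]) dβp _
  have dαN : ‖α ^ (e * h * φ) - α₀ ^ (e * h * φ)‖ ≤ θ ^ p := by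
    have e1 : e * h * φ = p * (e * h * φ') := by rw [hφ']; ring
    rw [e1, pow_mul α p, pow_mul α₀ p]
    exact near_pow (by rw [norm_pow, nα, one_pow]) (by rw [norm_pow, uα.2, one_pow]) dαp _
  set V₀ := β₀ ^ (h * n * φ) * (-1) ^ (e * h) with hV₀
  set Z₀ := α₀ ^ (e * h * φ) with hZ₀
  have uV₀ : Uu p V₀ := uu_mul urr hp hE (uu_pow urr hp hE uβ _)
    (uu_pow urr hp hE (uu_neg_one urr hp hE) _)
  have uZ₀ : Uu p Z₀ := uu_pow urr hp hE uα _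
  have dV : ‖β ^ (h * n * φ) * P ^ (e * h) - V₀‖ ≤ θ ^ p :=
    near_mul (by rw [norm_pow, nβ, one_pow]) (by simp) dβN (near_pow n4 (by simp) dP _)
  set w := aeval t w₁ / aeval t w₂ with hw'
  have hZ0 : Z₀ ≠ 0 := by
    intro h0; have := uZ₀.2; rw [h0, norm_zero] at this; exact zero_ne_one this
  -- κ₀ = V₀ / Z₀
  have d1 : ‖V₀ / Z₀ - ξ * w ^ e‖ ≤ θ ^ p := by
    have e1 : V₀ / Z₀ - ξ * w ^ e = (-(β ^ (h * n * φ) * P ^ (e * h) - V₀) +
        ((β ^ (h * n * φ) * P ^ (e * h) - ξ * w ^ e * α ^ (e * h * φ)) +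
          ξ * w ^ e * (α ^ (e * h * φ) - Z₀))) / Z₀ := by
      field_simp
      ring
    rw [e1, norm_div, uZ₀.2, div_one]
    refine (IsUltrametricDist.norm_add_le_max _ _).trans (max_le (by rwa [norm_neg]) ?_)
    refine (IsUltrametricDist.norm_add_le_max _ _).trans (max_le (hmain.trans hεθ) ?_)
    rw [norm_mul, norm_mul, hξn, norm_pow, nw, one_pow, one_mul, one_mul]
    exact dαN
  -- insert ξ
  have d2 : ‖V₀ / Z₀ - ξt * (aeval t A / (ω * aeval t B)) ^ s * w ^ e‖ ≤ θ ^ p := by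
    refine near_tri d1 ?_
    have e1 : ξ * w ^ e - ξt * (aeval t A / (ω * aeval t B)) ^ s * w ^ e =
        ξt * (η ^ s - (aeval t A / (ω * aeval t B)) ^ s) * w ^ e := by
      rw [hξs]; ring
    rw [e1, norm_mul, norm_mul, hξtu.2, norm_pow w, nw, one_pow, one_mul, mul_one]
    exact near_pow hηn nA' dη s
  refine ⟨V₀ / Z₀ * ω ^ s, ξt, s, uu_mul urr hp hE (uu_div urr hp hE uV₀ uZ₀)
    (uu_pow urr hp hE hωu s), hξt, ?_⟩
  have hω0 : ω ≠ 0 := by rintro rfl; simp at hωB0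
  have hB0 : aeval t B ≠ 0 := by intro h0; apply hωB0; rw [h0, mul_zero]
  have e3 : V₀ / Z₀ * ω ^ s * aeval t w₂ ^ e * aeval t B ^ s -
      ξt * aeval t w₁ ^ e * aeval t A ^ s =
      (V₀ / Z₀ - ξt * (aeval t A / (ω * aeval t B)) ^ s * w ^ e) *
        ((ω * aeval t B) ^ s * aeval t w₂ ^ e) := by
    rw [hw', div_pow, div_pow, mul_pow]
    have h1 : ω ^ s ≠ 0 := pow_ne_zero _ hω0
    have h2 : aeval t B ^ s ≠ 0 := pow_ne_zero _ hB0
    have h3 : aeval t w₂ ^ e ≠ 0 := pow_ne_zero _ hw20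
    field_simp
  rw [e3, norm_mul, norm_mul, norm_pow, norm_pow, nωB, hW.n2, one_pow, one_pow, one_mul, mul_one]
  exact d2

end Pool.Agent.ZPU.H79
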