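import Pool.Agent.ZPU.StmtsC
import Pool.Agent.Helper51_ZP3.Asm
import Pool.Agent.Helper6_ZPU.RFF
import Pool.Agent.Helper85_ZPU.URP
import Pool.Agent.Helper75_ZPU.EVO
import Pool.Agent.Helper27_ZPU.SHR
import Pool.Agent.Helper38_ZPU.NWT
import Pool.Agent.Helper24_ZPU.ORD
import Pool.Agent.Helper81_ZPU.FML
import Pool.Agent.Helper64_ZPU.TEF
import Pool.Agent.Helper10_ZPU.TBD
import Pool.Agent.Helper92_ZPU.TEI
import Pool.Agent.Helper69_ZPU.SML
import Pool.Agent.Helper24_ZPU.REL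
import Pool.Agent.Helper95_ZPU.DPO
import Pool.Agent.Helper95_ZPU.OMG
import Pool.Agent.Helper41_ZPU.RYC
import Pool.Agent.Helper75_ZPU.TAM
import Pool.Agent.Helper69_ZPU.WZH
import Pool.Agent.Helper95_ZPU.WZR
import Pool.Agent.Helper7_ZPU.PIE
import Pool.Agent.Helper16_ZPU.RWP
import Pool.Agent.Helper85_ZPU.WPR
import Pool.Agent.Helper79_ZPU.WXA
import Pool.Agent.Helper79_ZPU.WXB
import Pool.Agent.Helper79_ZPU.WZF
import Pool.Agent.Helper79_ZPU.WZ2
import Pool.Agent.Helper51_ZPU.WZE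
import Pool.Agent.Helper75_ZPU.WZ1
import Pool.Agent.Helper60_ZPU.PHI
import Pool.Agent.Helper32_ZPU.FAL
import Pool.Agent.Helper75_ZPU.FA1
import Pool.Agent.Helper32_ZPU.FA2
import Pool.Agent.Helper75_ZPU.WLD
import Pool.Agent.Helper95_ZPU.IND
import Pool.Agent.Helper75_ZPU.ALG
import Pool.Agent.Helper81_ZPU.TCA
import Pool.Agent.Helper80_ZPU.C0
import Pool.Agent.Helper49_ZPU.LC0
import Pool.Agent.Helper70_ZPU.LC1
import Pool.Agent.Helper79_ZPU.LOCU
import Pool.Agent.Helper24_ZPU.RFL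
import Pool.Agent.Helper49_ZPU.REV
import Pool.Agent.Helper24_ZPU.NUM
import Pool.Agent.Helper80_ZPU.NID
import Pool.Agent.Helper69_ZPU.FNU
import Pool.Agent.Helper95_ZPU.CNT
import Pool.Agent.Helper23_ZPU.BAD
import Pool.Agent.Helper70_ZPU.HPV
import Pool.Agent.Helper7_ZPU.DEN
import Pool.Agent.Helper24_ZPU.HYQ
import Pool.Agent.Helper31_ZPU.AF1
import Pool.Agent.Helper70_ZPU.AFB
import Pool.Agent.Helper32_ZPU.AFD

/-!
Squad ZPU: assembly.
-/

set_option autoImplicit false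

namespace Pool.Agent.ZPU.H79

open Pool.Agent.ZPT Pool.Agent.ZP3

/-- Rows FNU, DEN, HYQ, AFD. -/
theorem asm : FNUStmt ∧ DENStmt ∧ HYQStmt ∧ AFDStmt := by
  -- ZPT
  have je := ZPT.H56.je
  have ji := ZPT.H25.ji je
  have js := ZPT.H77.js je
  have hf := ZPT.H32.hf
  have hu := ZPT.H32.hu
  have hi := ZPT.H3.hi ji hf hu
  have mf := ZPT.H39.mf je
  have mp := ZPT.H76.mp je hi
  have mc := ZPT.H41.mc mf mp
  have ic := ZPT.H25.ic ji hf
  have ib := ZPT.H25.ib js
  have is_ := ZPT.H25.is_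
  have ev := ZPT.H84.ev
  have ue := ZPT.H3U.ue ev
  have ui := ZPT.H70.ui
  have ux := ZPT.H62.ux je ev ue ui
  have uq := ZPT.H88.uq
  have hs' := ZPT.H51.hs ev
  have hc := ZPT.H18.hc
  have sq := ZPT.H84.sq
  have ms := ZPT.H18.ms ev uq hs' hc sq mc
  have mk := ZPT.H18.mk ev hs' ms
  have nw := ZPT.H49.nw
  have ps := ZPT.H62.ps ux hc mk nw
  have eh := ZPT.H88.eh
  have tb := ZPT.H88.tb
  have ti := ZPT.H88.ti
  have ts := ZPT.H88.ts
  have ik := ZPT.H92.ik ic eh tb ts ZPT.H62.tp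
  have tq := ZPT.H62.tq
  have kx := ZPT.H15.kx
  have fo := ZPT.H88.fo
  -- ZP3
  have urr := ZP3.H60.urr
  have urt := ZP3.H56.urt
  have thb := ZP3.H32.thb
  have spl := ZP3.H82.spl
  have wtm := ZP3.H33.wtm
  have wwn := ZP3.H33.wwn
  have dep := ZP3.H67.dep
  have tat := ZP3.H39.tat
  have gnr := ZP3.H20.gnr
  have dn3 := ZP3.H17.dn3
  -- ZPU
  have rff := H6.rff
  have urp := H85.urp urr
  have evo := H75.evo
  have shr := H27.shr
  have nwt := H38.nwt urr
  have ord := H24.ord urr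
  have fml := H81.fml
  have tef := H64.tef urr urt wtm
  have tbd := H10.tbd gnr tef
  have tei := Pool.Agent.Helper92_ZPU.tei fo
  have sml := H69.sml
  have rel := H24.rel
  have dpo := H95.dpo
  have omg := H95.omg dpo
  have ryc := H41.ryc urr tef evo dpo
  have tam := H75.tam tbd omg ryc dpo tef evo urr
  have wzh := H69.wzh urp evo shr nwt fml tef wwn thb urr rff
  have wzr := H95.wzr wzh spl
  have pie := H7.pie wwn thb
  have rwp := H16.rwp wwn
  have wpr := H85.wpr ord shr evo urp tef wwn thb dep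
  have wxa' := wxa wwn thb
  have wxb' := wxb wxa' pie rwp spl tef urr urp evo wwn thb
  have wzf' := wzf wxa' wxb' pie rel tef urr urp evo wwn thb
  have wz2' := wz2 wzf' nwt fml shr evo urp urr tef
  have wze := H51.wze wxa' wxb' pie rel tef urr urp evo wwn thb
  have wz1 := H75.wz1 wze nwt shr evo urp tef urr
  have phi := H60.phi
  have fal := H32.fal
  have fa1 := H75.fa1 phi fal fml
  have fa2 := H32.fa2
  have wld := H75.wld rff spl wpr wz1 wz2' fa1 fa2 shr tef
  have ind := H95.ind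
  have alg := H75.alg
  have tca := H81.tca tat
  have c0 := H80.c0 wzr tam
  have lc0 := H49.lc0 tca ind c0
  have lc1 := H70.lc1 tca alg wld tbd sml
  have locu' := locu lc0 lc1 tei sml evo ik is_ ti ts tq eh
  have rev := H49.rev H24.rflRow
  have num := H24.num
  have nid := H80.nid sml rev
  have fnu := H69.fnu kx ps ic ib ik num nid rev locu'
  have bad := H23.bad H95.cnt
  have den := H7.den dn3 bad H70.hpv fnu
  have afb := H70.afb H31.af1
  have afd := H32.afd dn3 afb fnu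
  exact ⟨fnu, den, H24.hyq, afd⟩

end Pool.Agent.ZPU.H79
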