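import Pool.Agent.Helper79_ZPU.WXA

/-!
Squad ZPU: common lemmas for the rows WXB, WZF, WZE.
-/

set_option autoImplicit false

namespace Pool.Agent.ZPU.H79

open Polynomial Pool.Agent.ZPT Pool.Agent.ZP3

section
variable {p : ℕ} {K : Type} [NormedField K] [CharZero K] [IsUltrametricDist K]

lemma uu_mul (urr : URRStmt) (hp : p.Prime) (hE : Ext p K) {a b : K} (ha : Uu p a) (hb : Uu p b) :
    Uu p (a * b) :=
  ⟨((urr p hp K hE).1 a b ha.1 hb.1).2.1, by rw [norm_mul, ha.2, hb.2, one_mul]⟩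

lemma uu_inv (urr : URRStmt) (hp : p.Prime) (hE : Ext p K) {a : K} (ha : Uu p a) : Uu p a⁻¹ :=
  (urr p hp K hE).2.2.2.2 a ha

lemma uu_div (urr : URRStmt) (hp : p.Prime) (hE : Ext p K) {a b : K} (ha : Uu p a) (hb : Uu p b) :
    Uu p (a / b) := by
  rw [div_eq_mul_inv]
  exact uu_mul urr hp hE ha (uu_inv urr hp hE hb)

lemma uu_one (urr : URRStmt) (hp : p.Prime) (hE : Ext p K) : Uu p (1 : K) := by
  refine ⟨?_, norm_one⟩
  have := (urr p hp K hE).2.2.1 1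
  simpa using this

lemma uu_neg_one (urr : URRStmt) (hp : p.Prime) (hE : Ext p K) : Uu p (-1 : K) := by
  refine ⟨?_, by simp⟩
  have := (urr p hp K hE).2.2.1 (-1)
  simpa using this

lemma uu_pow (urr : URRStmt) (hp : p.Prime) (hE : Ext p K) {a : K} (ha : Uu p a) (n : ℕ) :
    Uu p (a ^ n) := by
  induction n with
  | zero => simpa using uu_one urr hp hE
  | succ n ih => rw [pow_succ]; exact uu_mul urr hp hE ih ha

lemma norm_near {x y : K} (hy : ‖y‖ = 1) (h : ‖y - x‖ < 1) : ‖x‖ = 1 := by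
  have h1 : x = (x - y) + y := by ring
  have h2 : ‖x - y‖ < 1 := by rwa [norm_sub_rev]
  have h3 : ‖(x - y) + y‖ = max ‖x - y‖ ‖y‖ := by
    apply IsUltrametricDist.norm_add_eq_max_of_norm_ne_norm
    rw [hy]; exact h2.ne
  rw [h1, h3, hy, max_eq_right h2.le]

lemma near_mul {x x' y y' : K} {c : ℝ} (hx : ‖x‖ = 1) (hy' : ‖y'‖ = 1)
    (h1 : ‖x - x'‖ ≤ c) (h2 : ‖y - y'‖ ≤ c) : ‖x * y - x' * y'‖ ≤ c := by
  have h : x * y - x' * y' = x * (y - y') + (x - x') * y' := by ring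
  rw [h]
  refine (IsUltrametricDist.norm_add_le_max _ _).trans (max_le ?_ ?_)
  · rw [norm_mul, hx, one_mul]; exact h2
  · rw [norm_mul, hy', mul_one]; exact h1

lemma near_pow {x x' : K} {c : ℝ} (hx : ‖x‖ = 1) (hx' : ‖x'‖ = 1) (h : ‖x - x'‖ ≤ c) (n : ℕ) :
    ‖x ^ n - x' ^ n‖ ≤ c := by
  induction n with
  | zero => simpa using (norm_nonneg _).trans h
  | succ n ih =>
    rw [pow_succ, pow_succ]
    exact near_mul (by rw [norm_pow, hx, one_pow]) hx' ih h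

lemma near_inv {x x' : K} {c : ℝ} (hx : ‖x‖ = 1) (hx' : ‖x'‖ = 1) (h : ‖x - x'‖ ≤ c) :
    ‖x⁻¹ - x'⁻¹‖ ≤ c := by
  have h0 : x ≠ 0 := by intro h0; rw [h0, norm_zero] at hx; exact zero_ne_one hx
  have h0' : x' ≠ 0 := by intro h0; rw [h0, norm_zero] at hx'; exact zero_ne_one hx'
  have h1 : x⁻¹ - x'⁻¹ = (x' - x) / (x * x') := by field_simp
  rw [h1, norm_div, norm_mul, hx, hx', one_mul, div_one, norm_sub_rev]
  exact h

lemma near_div {x x' y y' : K} {c : ℝ} (hx : ‖x‖ = 1) (hy : ‖y‖ = 1) (hy' : ‖y'‖ = 1)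
    (h1 : ‖x - x'‖ ≤ c) (h2 : ‖y - y'‖ ≤ c) : ‖x / y - x' / y'‖ ≤ c := by
  rw [div_eq_mul_inv, div_eq_mul_inv]
  exact near_mul hx (by rw [norm_inv, hy', inv_one]) h1 (near_inv hy hy' h2)

lemma near_tri {x y z : K} {c : ℝ} (h1 : ‖x - y‖ ≤ c) (h2 : ‖y - z‖ ≤ c) : ‖x - z‖ ≤ c := by
  have h : x - z = (x - y) + (y - z) := by ring
  rw [h]
  exact (IsUltrametricDist.norm_add_le_max _ _).trans (max_le h1 h2)

lemma evO_zero (P : (OO K)[X]) : evO P (0 : K) = ((P.coeff 0 : OO K) : K) := by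
  unfold evO
  rw [eval₂_at_zero]
  rfl

/-- A polynomial with integer coefficients which is a unit at `t`, `‖t - t₀‖ < 1`. -/
lemma val_t0 (urr : URRStmt) (urp : URPStmt) (evo : EVOStmt) (tef : TEFStmt) (hp : p.Prime)
    (hE : Ext p K) {t t₀ : K} (ht₀ : Te p t₀) (ht : ‖t - t₀‖ < 1) (A : ℤ[X])
    (hA : ‖aeval t A‖ = 1) :
    Uu p (aeval t₀ A) ∧ ‖aeval t A - aeval t₀ A‖ ≤ ‖t - t₀‖ ∧ ‖t‖ ≤ 1 ∧ ‖t₀‖ ≤ 1 := by
  have h0 := (tef p hp K hE).1 t₀ ht₀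
  have h1 : ‖t‖ ≤ 1 := by
    have : t = (t - t₀) + t₀ := by ring
    rw [this]
    exact (IsUltrametricDist.norm_add_le_max _ _).trans (max_le ht.le h0.2.1)
  have h2 := ((evo K).2.2.2.2.2.2 A t t₀ h1 h0.2.1).2.1
  refine ⟨⟨(urp p hp K hE).2.2.2.2.2 A t₀ h0.1, norm_near hA (h2.trans_lt ht)⟩, h2, h1, h0.2.1⟩

end

end Pool.Agent.ZPU.H79
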